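import Pool.Agent.helper32.TRG.Spec

/-!
# Project TRG (MP_561ff4_al), row N4N (helper66): generation with scaled root elements
-/

set_option autoImplicit false

open Finset

namespace Pool.Agent.TRI

open Pool.Agent.EXC

theorem N4N (hX4C : X4C_stmt) (hRL4 : RL4_stmt) : N4N_stmt := by
  have _ := hRL4
  intro K _ χ c hc H hH
  have hX := hX4C K χ c hc
  have hzero : ∀ α, ip C4 α α = 2 → XP χ c α (0 : K) = 1 := fun α hα => (hX α α hα hα 0 0).2.1
  have hinv : ∀ (α : Fin 4 → ℤ) (s : K), ip C4 α α = 2 → XP χ c α (-s) = (XP χ c α s)⁻¹ := by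
    intro α s hα
    have h1 := (hX α α hα hα s (-s)).1
    rw [add_neg_cancel, hzero α hα] at h1
    exact eq_inv_of_mul_eq_one_right h1.symm
  have hsign : ∀ (α : Fin 4 → ℤ) (s : K) (e : ℤ), ip C4 α α = 2 → (e = 1 ∨ e = -1) → XP χ c α (s * (e : K)) ∈ H →
      XP χ c α s ∈ H := by
    intro α s e hα he h
    rcases he with he | he
    · rw [he, Int.cast_one, mul_one] at h
      exact h
    · rw [he, Int.cast_neg, Int.cast_one, mul_neg_one, hinv α s hα] at h
      exact inv_mem_iff.1 h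
  have hstep : ∀ (α β : Fin 4 → ℤ) (s t : K), ip C4 α α = 2 → ip C4 β β = 2 → ip C4 α β = -1 → XP χ c α s ∈ H →
      XP χ c β t ∈ H → ip C4 (α + β) (α + β) = 2 ∧ XP χ c (α + β) (s * t) ∈ H := by
    intro α β s t hα hβ hαβ h1 h2
    have hγ : ip C4 (α + β) (α + β) = 2 := (add_root_iff hα hβ).2 hαβ
    refine ⟨hγ, ?_⟩
    have h4 := (hX α β hα hβ s t).2.2.2 hαβ
    refine hsign (α + β) (s * t) (sg C4 α β) hγ (sg_cases C4 _ _) ?_
    have h5 : XP χ c (α + β) (s * t * (sg C4 α β : K)) =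
        (XP χ c β t)⁻¹ * (XP χ c α s * XP χ c β t * (XP χ c α s)⁻¹) := by
      rw [h4, inv_mul_cancel_left]
    rw [h5]
    exact mul_mem (inv_mem h2) (mul_mem (mul_mem h1 h2) (inv_mem h1))
  -- the reflections, parameter 1
  have hrf1 : ∀ (i : Fin 4) (α : Fin 4 → ℤ), ip C4 α α = 2 → XP χ c α (1 : K) ∈ H → XP χ c (rf C4 i α) (1 : K) ∈ H := by
    intro i α hα h
    have hsr := ip_sr_self C4 i
    have hsr' : ip C4 (-sr i) (-sr i) = 2 := neg_root C4 hsr
    have hab := ip_abs_le (C := C4) hα hsr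
    have hcs : ip C4 α (sr i) = -2 ∨ ip C4 α (sr i) = -1 ∨ ip C4 α (sr i) = 0 ∨ ip C4 α (sr i) = 1 ∨ ip C4 α (sr i) = 2 := by omega
    rcases hcs with h0 | h0 | h0 | h0 | h0
    · have e : α = -sr i := by
        rw [eq_neg_of_ip_eq_neg_two (C := C4) hα hsr h0, neg_neg]
      have e2 : rf C4 i α = sr i := by
        rw [rf, h0, e]
        module
      rw [e2]
      exact (hH i).1
    · have e2 : rf C4 i α = α + sr i := by
        rw [rf, h0]
        module
      rw [e2]
      have h3 := (hstep α (sr i) 1 1 hα hsr h0 h (hH i).1).2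
      rwa [mul_one] at h3
    · have e2 : rf C4 i α = α := by
        rw [rf, h0]
        module
      rw [e2]
      exact h
    · have e2 : rf C4 i α = α + -sr i := by
        rw [rf, h0]
        module
      rw [e2]
      have h3 := (hstep α (-sr i) 1 1 hα hsr' (by rw [ip_neg_right, h0]) h (hH i).2).2
      rwa [mul_one] at h3
    · have e : α = sr i := eq_of_ip_eq_two (C := C4) hα hsr h0
      have e2 : rf C4 i α = -sr i := by
        rw [rf, h0, e]
        module
      rw [e2]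
      exact (hH i).2
  have hchain : ∀ (s : K), (∀ (i : Fin 4) (α : Fin 4 → ℤ), ip C4 α α = 2 → XP χ c α s ∈ H → XP χ c (rf C4 i α) s ∈ H) →
      ∀ (α β : Fin 4 → ℤ), ip C4 α α = 2 → ip C4 β β = 2 → XP χ c α s ∈ H → XP χ c β s ∈ H := by
    intro s hrf α β hα hβ h
    have hd := f_DOM 4 C4 univ D4_con α β hα hβ (fun i hi => absurd (mem_univ i) hi)
      (fun i hi => absurd (mem_univ i) hi)
    have key : ip C4 β β = 2 ∧ XP χ c β s ∈ H := by
      clear hβ
      induction hd with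
      | refl => exact ⟨hα, h⟩
      | @tail b d _ hbd ih =>
        obtain ⟨i, -, rfl⟩ := hbd
        exact ⟨by rw [(f_RFL 4 C4 i b b).1]; exact ih.1, hrf i b ih.1 ih.2⟩
    exact key.2
  have hone : ∀ α, ip C4 α α = 2 → XP χ c α (1 : K) ∈ H := fun α hα =>
    hchain 1 hrf1 (sr 0) α (ip_sr_self C4 0) hα (hH 0).1
  refine ⟨hone, ?_⟩
  intro v t hv hvt hgen
  have hadj : ∀ (α β : Fin 4 → ℤ) (s : K), ip C4 α α = 2 → ip C4 β β = 2 → ip C4 α β = 1 → XP χ c α s ∈ H → XP χ c β s ∈ H := by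
    intro α β s hα hβ hαβ h
    have h1 : ip C4 (β - α) (β - α) = 2 := by
      rw [ip_sub_left, ip_sub_right, ip_sub_right, ip_comm C4 β α, hα, hβ, hαβ]
      norm_num
    have h2 : ip C4 α (β - α) = -1 := by
      rw [ip_sub_right, hαβ, hα]
      norm_num
    have h3 := (hstep α (β - α) s 1 hα h1 h2 h (hone _ h1)).2
    rwa [mul_one, add_sub_cancel] at h3
  have hneg : ∀ (α : Fin 4 → ℤ) (s : K), ip C4 α α = 2 → XP χ c α s ∈ H → XP χ c (-α) s ∈ H := by
    intro α s hα h
    obtain ⟨β, hβ, hαβ⟩ := hb4 α hα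
    have hγ : ip C4 (α + β) (α + β) = 2 := (add_root_iff hα hβ).2 hαβ
    have h1 : ip C4 α (α + β) = 1 := by
      rw [ip_add_right, hα, hαβ]
      norm_num
    have h2 : ip C4 (α + β) β = 1 := by
      rw [ip_add_left, hβ, hαβ]
      norm_num
    have h3 : ip C4 β (-α) = 1 := by
      rw [ip_neg_right, ip_comm C4 β α, hαβ]
      norm_num
    exact hadj β (-α) s hβ (neg_root C4 hα) h3 (hadj (α + β) β s hγ hβ h2 (hadj α (α + β) s hα hγ h1 h))
  have hrf : ∀ (s : K) (i : Fin 4) (α : Fin 4 → ℤ), ip C4 α α = 2 → XP χ c α s ∈ H → XP χ c (rf C4 i α) s ∈ H := by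
    intro s i α hα h
    have hsr := ip_sr_self C4 i
    have hab := ip_abs_le (C := C4) hα hsr
    have hr : ip C4 (rf C4 i α) (rf C4 i α) = 2 := by rw [(f_RFL 4 C4 i α α).1]; exact hα
    have hm : ip C4 α (rf C4 i α) = 2 - ip C4 α (sr i) * ip C4 α (sr i) := by
      rw [rf, ip_sub_right, ip_smul_right, hα]
    have hcs : ip C4 α (sr i) = -2 ∨ ip C4 α (sr i) = -1 ∨ ip C4 α (sr i) = 0 ∨ ip C4 α (sr i) = 1 ∨ ip C4 α (sr i) = 2 := by omega
    have hc3 : ip C4 α (rf C4 i α) = -2 ∨ ip C4 α (rf C4 i α) = 1 ∨ ip C4 α (rf C4 i α) = 2 := by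
      rcases hcs with h0 | h0 | h0 | h0 | h0 <;> rw [h0] at hm <;> omega
    rcases hc3 with h1 | h1 | h1
    · have e : rf C4 i α = -α := eq_neg_of_ip_eq_neg_two (C := C4) hα hr h1
      rw [e]
      exact hneg α s hα h
    · exact hadj α _ s hα hr h1 h
    · have e := eq_of_ip_eq_two (C := C4) hα hr h1
      rw [← e]
      exact h
  let A : Subring K :=
    { carrier := {s | ∀ α, ip C4 α α = 2 → XP χ c α s ∈ H}
      one_mem' := hone
      zero_mem' := by
        intro α hα
        rw [hzero α hα]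
        exact one_mem H
      add_mem' := by
        intro a b ha hb α hα
        rw [(hX α α hα hα a b).1]
        exact mul_mem (ha α hα) (hb α hα)
      neg_mem' := by
        intro a ha α hα
        rw [hinv α a hα]
        exact inv_mem (ha α hα)
      mul_mem' := by
        intro a b ha hb γ hγ
        obtain ⟨β', hβ', hγβ⟩ := hb4 γ hγ
        have h1 : ip C4 (γ + β') (γ + β') = 2 := (add_root_iff hγ hβ').2 hγβ
        have h2 : ip C4 (-β') (-β') = 2 := neg_root C4 hβ'
        have h3 : ip C4 (γ + β') (-β') = -1 := by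
          rw [ip_neg_right, ip_add_left, hγβ, hβ']
          norm_num
        have h4 := (hstep (γ + β') (-β') a b h1 h2 h3 (ha _ h1) (hb _ h2)).2
        have e5 : γ + β' + -β' = γ := by abel
        rwa [e5] at h4 }
  have htA : t ∈ A := fun α hα => hchain t (hrf t) v α hv hα hvt
  have hA : A = ⊤ := hgen A htA
  have hevery : ∀ (u : K) (α : Fin 4 → ℤ), ip C4 α α = 2 → XP χ c α u ∈ H := by
    intro u α hα
    have hu : u ∈ A := by
      rw [hA]
      exact Subring.mem_top u
    exact hu α hα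
  unfold GE
  rw [Subgroup.closure_le]
  rintro g ⟨α, hα, s, hg⟩
  have h8 : g = XP χ c α (s * (c ^ (cv4 χ α))⁻¹) := by
    have hne : c ^ (cv4 χ α) ≠ 0 := zpow_ne_zero _ hc
    unfold XP
    rw [inv_mul_cancel_right₀ hne]
    refine LinearEquiv.ext fun x => ?_
    rw [hg x, (g_XG K α hα s).1 x]
  rw [h8]
  exact hevery _ α hα

end Pool.Agent.TRI
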